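import Pool.Agent.Helper89K9.MC.Stm

/-!
# Project MC, leaf NUM: the choice of the parameters
-/

set_option autoImplicit false

namespace Pool.Agent.Helper97K9.MC

open Finset
open Pool.Agent.Helper89K9.MC

namespace NumL

theorem lam_ge {p : ℕ} (hp : 3 ≤ p) (D : ℕ) : 1 ≤ lam p D := by
  unfold lam
  have h1 : (1 : ℝ) ≤ p := by exact_mod_cast (by omega : 1 ≤ p)
  have h2 : (1 : ℝ) ≤ 2 ^ (p - 1) := one_le_pow₀ (by norm_num)
  refine one_le_pow₀ ?_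
  nlinarith

theorem two_pow (k : ℕ) : (2 : ℝ) ^ k = Real.exp (k * Real.log 2) := by
  rw [Real.exp_nat_mul, Real.exp_log (by norm_num)]

/-- the main term is at most `2 ^ (- n)` -/
theorem main {n p D s l τ : ℕ} (hp : 3 ≤ p) (hn : 256 * lam p D ≤ n)
    (hl : 256 * lam p D * l ≤ n)
    (hs : 256 * lam p D * (s * Real.logb 2 p * τ) ≤ (n : ℝ) ^ 2) :
    (2 : ℝ) ^ (n * l) * ((p : ℝ) ^ s) ^ τ * (1 - 1 / lam p D) ^ (n * n / 64) ≤ 1 / 2 ^ n := by
  have hL := lam_ge hp D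
  set L := lam p D with hLd
  have hL0 : 0 < L := by linarith
  have hn0 : (256 : ℝ) ≤ n := by nlinarith
  have hlog2 : Real.log 2 < 0.7 := by
    have := Real.log_two_lt_d9
    linarith
  have hlog2' : 0 < Real.log 2 := Real.log_pos (by norm_num)
  have hp0 : (0 : ℝ) < p := by exact_mod_cast (by omega : 0 < p)
  have e1 : ((p : ℝ) ^ s) ^ τ = Real.exp (τ * (s * Real.log p)) := by
    rw [Real.exp_nat_mul, Real.exp_nat_mul, Real.exp_log hp0]
  have e2 : (1 - 1 / L) ^ (n * n / 64) ≤ Real.exp (((n * n / 64 : ℕ) : ℝ) * (-(1 / L))) := by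
    rw [Real.exp_nat_mul]
    refine pow_le_pow_left₀ ?_ (Real.one_sub_le_exp_neg _) _
    rw [sub_nonneg, div_le_one hL0]
    exact hL
  have e3 : (1 : ℝ) / 2 ^ n = Real.exp (-(n * Real.log 2)) := by
    rw [two_pow, Real.exp_neg, one_div]
  rw [two_pow, e1, e3, ← Real.exp_add]
  refine (mul_le_mul_of_nonneg_left e2 (Real.exp_pos _).le).trans ?_
  rw [← Real.exp_add]
  refine Real.exp_le_exp.2 ?_
  have hfl : (n : ℝ) ^ 2 / 64 - 1 ≤ ((n * n / 64 : ℕ) : ℝ) := by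
    have h1 : n * n < (n * n / 64 + 1) * 64 := by omega
    have h2 : ((n * n : ℕ) : ℝ) < (((n * n / 64 + 1) * 64 : ℕ) : ℝ) := by exact_mod_cast h1
    push_cast at h2
    have h3 : ((n * n / 64 : ℕ) : ℝ) = (((n * n / 64 : ℕ)) : ℝ) := rfl
    nlinarith
  have hlogp : Real.log p = Real.logb 2 p * Real.log 2 := by
    rw [Real.logb, div_mul_cancel₀ _ hlog2'.ne']
  -- the three exponents times `L`
  have f1 : (((n * l : ℕ) : ℝ) * Real.log 2) ≤ (n : ℝ) ^ 2 / (256 * L) * Real.log 2 := by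
    refine mul_le_mul_of_nonneg_right ?_ hlog2'.le
    rw [le_div_iff₀ (by positivity)]
    push_cast
    nlinarith
  have f2 : (τ * (s * Real.log p)) ≤ (n : ℝ) ^ 2 / (256 * L) * Real.log 2 := by
    rw [hlogp]
    have : (τ * (s * (Real.logb 2 p * Real.log 2))) = (s * Real.logb 2 p * τ) * Real.log 2 := by
      ring
    rw [this]
    refine mul_le_mul_of_nonneg_right ?_ hlog2'.le
    rw [le_div_iff₀ (by positivity)]
    linarith
  have f3 : ((n * n / 64 : ℕ) : ℝ) * (-(1 / L)) ≤ -(((n : ℝ) ^ 2 / 64 - 1) / L) := by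
    have h4 : ((n : ℝ) ^ 2 / 64 - 1) / L ≤ ((n * n / 64 : ℕ) : ℝ) / L :=
      div_le_div_of_nonneg_right hfl hL0.le
    have h5 : ((n * n / 64 : ℕ) : ℝ) * (-(1 / L)) = -(((n * n / 64 : ℕ) : ℝ) / L) := by ring
    rw [h5]
    linarith
  have f4 : 256 * (n : ℝ) ≤ (n : ℝ) ^ 2 / L := by
    rw [le_div_iff₀ hL0]
    nlinarith
  have f5 : 1 / L ≤ 1 := by
    rw [div_le_one hL0]
    exact hL
  have g1 : (n : ℝ) ^ 2 / (256 * L) * Real.log 2 = (n : ℝ) ^ 2 / L * (Real.log 2 / 256) := by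
    field_simp
  have g2 : ((n : ℝ) ^ 2 / 64 - 1) / L = (n : ℝ) ^ 2 / L * (1 / 64) - 1 / L := by
    field_simp
  rw [g1] at f1 f2
  rw [g2] at f3
  set X := (n : ℝ) ^ 2 / L with hX
  have f6 : X * (Real.log 2 / 256) ≤ X * (0.7 / 256) :=
    mul_le_mul_of_nonneg_left (by linarith) (by linarith)
  have f7 : (n : ℝ) * Real.log 2 ≤ n * 0.7 := mul_le_mul_of_nonneg_left hlog2.le (by linarith)
  linarith

end NumL

open NumL

theorem num : S_NUM := by
  intro n p D s e l τ hp hn he hl hs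
  have hm := main hp hn hl hs
  have hL := lam_ge hp D
  have hn0 : (256 : ℝ) ≤ n := by nlinarith
  have hn1 : 256 ≤ n := by exact_mod_cast hn0
  obtain ⟨a, ha⟩ : ∃ a, a = n / 32 := ⟨_, rfl⟩
  have ha8 : 8 ≤ a := by omega
  set X : ℝ := (2 : ℝ) ^ (n * l) * ((p : ℝ) ^ s) ^ τ * (1 - 1 / lam p D) ^ (n * n / 64) with hX
  set y : ℝ := 1 / 2 ^ a with hy
  have h2a : ∀ k : ℕ, (1 : ℝ) / 2 ^ (k * a) = y ^ k := by
    intro k
    rw [hy, one_div_pow, ← pow_mul, mul_comm]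
  have hy0 : 0 < y := by positivity
  have hy1 : y ≤ 1 / 256 := by
    rw [hy]
    have h3 : (2 : ℝ) ^ 8 ≤ 2 ^ a := pow_le_pow_right₀ (by norm_num) ha8
    have h4 := one_div_le_one_div_of_le (by norm_num : (0 : ℝ) < 2 ^ 8) h3
    calc (1 : ℝ) / 2 ^ a ≤ 1 / 2 ^ 8 := h4
      _ = 1 / 256 := by norm_num
  have hone : ∀ {u v : ℕ}, u ≤ v → (1 : ℝ) / 2 ^ v ≤ 1 / 2 ^ u := by
    intro u v huv
    exact one_div_le_one_div_of_le (by positivity) (pow_le_pow_right₀ (by norm_num) huv)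
  have b1 : (1 : ℝ) / 2 ^ (n / 4) ≤ y ^ 8 := by
    rw [← h2a]
    exact hone (by omega)
  have b2 : (1 : ℝ) / 2 ^ (n / 8) ≤ y ^ 4 := by
    rw [← h2a]
    exact hone (by omega)
  have b3 : X ≤ y ^ 4 := by
    refine hm.trans ?_
    rw [← h2a]
    exact hone (by omega)
  have b4 : (2 : ℝ) ^ e ≤ 1 / y := by
    rw [hy, one_div_one_div]
    exact pow_le_pow_right₀ (by norm_num) (by omega)
  have b5 : y ^ 2 / 2 ≤ (1 : ℝ) / 2 ^ (n / 16) := by
    have h3 : (1 : ℝ) / 2 ^ (2 * a + 1) ≤ 1 / 2 ^ (n / 16) := hone (by omega)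
    refine le_trans (le_of_eq ?_) h3
    rw [← h2a 2, pow_succ (2 : ℝ) (2 * a)]
    field_simp
  have b6 : (2 : ℝ) ^ e * (1 / 2 ^ (n / 8) + X) ≤ 2 * y ^ 3 := by
    calc (2 : ℝ) ^ e * (1 / 2 ^ (n / 8) + X) ≤ (2 : ℝ) ^ e * (y ^ 4 + y ^ 4) :=
          mul_le_mul_of_nonneg_left (add_le_add b2 b3) (by positivity)
      _ ≤ 1 / y * (y ^ 4 + y ^ 4) := mul_le_mul_of_nonneg_right b4 (by positivity)
      _ = 2 * y ^ 3 := by field_simp; ring
  have b7 : y ^ 8 ≤ y ^ 3 := pow_le_pow_of_le_one hy0.le (by linarith) (by norm_num)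
  have b8 : y ^ 3 ≤ y ^ 2 * (1 / 256) := by
    rw [pow_succ]
    exact mul_le_mul_of_nonneg_left hy1 (by positivity)
  have b9 : 0 ≤ y ^ 2 := by positivity
  linarith

end Pool.Agent.Helper97K9.MC
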