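import Pool.Agent.Helper89K9.MC.Stm

/-!
# Project MC, leaf VIRT: the memory for each value of the side information
-/

set_option autoImplicit false

namespace Pool.Agent.Helper97K9.MC

open Finset
open Pool.Agent.Helper89K9.MC
open H746R3.Inv (LD bK mono mono_mem)
open Pool.Agent.TH163.AC2 (Alg coord toM gm lenE rightE mavg coord_toM)
open Pool.Agent.H699R2.OMV (Prog Vec Mat IsProb before avg)

namespace VirtL

theorem bK_pow {K : Type} [Field K] (b : Bool) {k : ℕ} (hk : k ≠ 0) : (bK b : K) ^ k = bK b := by
  cases b
  · rw [H746R3.Inv.bK_false, zero_pow hk]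
  · rw [H746R3.Inv.bK_true, one_pow]

theorem eval_mem {K V : Type} [Field K] [DecidableEq V] (P : MvPolynomial V K) {D : ℕ}
    (hP : P.totalDegree ≤ D) :
    (fun x : V → Bool => MvPolynomial.eval (fun c => if x c then (1 : K) else 0) P) ∈ LD K V D := by
  have h1 : (fun x : V → Bool => MvPolynomial.eval (fun c => if x c then (1 : K) else 0) P) =
      ∑ d ∈ P.support, P.coeff d • (mono d.support : (V → Bool) → K) := by
    funext x
    rw [MvPolynomial.eval_eq, Finset.sum_apply]
    refine Finset.sum_congr rfl fun d _ => ?_
    rw [Pi.smul_apply, smul_eq_mul]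
    congr 1
    refine Finset.prod_congr rfl fun i hi => ?_
    exact bK_pow (x i) (Finsupp.mem_support_iff.1 hi)
  rw [h1]
  refine Submodule.sum_mem _ fun d hd => Submodule.smul_mem _ _ (mono_mem ?_)
  have h2 := MvPolynomial.le_totalDegree hd
  have h3 : d.support.card ≤ d.sum fun _ e => e := by
    rw [Finsupp.sum, Finset.card_eq_sum_ones]
    exact Finset.sum_le_sum fun i hi => Nat.one_le_iff_ne_zero.2 (Finsupp.mem_support_iff.1 hi)
  omega

end VirtL

open VirtL

theorem virt : S_VIRT := by
  classical
  intro p _ n w A G B D s e m f hP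
  choose P hPd hPm using hP
  let val : A → (Fin e → Bool) → Mat n → Fin s → ZMod p := fun a y M j =>
    MvPolynomial.eval (fun c => if coord G B M c then (1 : ZMod p) else 0) (P a y j)
  let g : A → (Fin e → Bool) → (Fin s → ZMod p) → Fin w → Bool := fun a y v =>
    if h : ∃ M', f M' = y ∧ val a y M' = v then m h.choose a else fun _ => false
  refine ⟨fun y M a => g a y (val a y M), fun M => ?_, fun y a => ?_⟩
  · funext a
    have h : ∃ M', f M' = f M ∧ val a (f M) M' = val a (f M) M := ⟨M, rfl, rfl⟩
    show g a (f M) (val a (f M) M) = m M a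
    have h1 : g a (f M) (val a (f M) M) = m h.choose a := dif_pos h
    rw [h1]
    exact hPm a (f M) _ _ h.choose_spec.1 rfl fun j => congrFun h.choose_spec.2 j
  · refine ⟨fun j x => MvPolynomial.eval (fun c => if x c then (1 : ZMod p) else 0) (P a y j),
      fun j => eval_mem _ (hPd a y j), fun x x' hx => ?_⟩
    have h1 : ∀ x, val a y (toM G B x) = fun j =>
        MvPolynomial.eval (fun c => if x c then (1 : ZMod p) else 0) (P a y j) := by
      intro x
      funext j
      show MvPolynomial.eval (fun c => if coord G B (toM G B x) c then (1 : ZMod p) else 0)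
        (P a y j) = _
      rw [coord_toM]
    show g a y (val a y (toM G B x)) = g a y (val a y (toM G B x'))
    rw [h1, h1, funext hx]

end Pool.Agent.Helper97K9.MC
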